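import Mathlib

/-!
# Heights under order preserving maps with Lipschitz inverses, nonlinear case

Let `K` and `L` be compact Hausdorff spaces and let `F` be an order preserving map (not necessarily
linear, continuous or onto) of `C(K)` into `C(L)`.  Let `s` and `c` be positive, and let
`‖F g - F f‖ ≥ c` for all `f ≤ g` with `‖g - f‖ ≥ s`; this holds if `F` has a Lipschitz, a uniformly
continuous or only a coarsely continuous inverse.  Then `L^(α)` is not empty for all ordinals `α`
for which `K^(α)` is not empty, and so the height of `K` is at most the height of `L`.  If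
`c ‖g - f‖ ≤ ‖F g - F f‖` for all `f ≤ g`, then the maximum of `F g - F f` on `L^(α)` is at least `c`
times the maximum of `g - f` on `K^(α)`.

Proof.  Induction on `α`.  If `k` is an accumulation point of `K^(α)`, take infinitely many
disjoint bumps at points of `K^(α)` near `k` and add them to `f` one after the other.  Each of them
raises `F` by `c` at a point of `L^(α)`.  As `F` is monotone and bounded by `F g`, each point of
`L` serves only for finitely many bumps.  So there are infinitely many points, and an accumulation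
point of them has the required property.
-/

set_option autoImplicit false

open Set Filter Topology

namespace Pool.Agent.Results.MP_d12f8b_an.NonlinearHeights

/-- The Cantor-Bendixson derivatives of a topological space: `K^(0) = K`, `K^(α+1)` is the set of
accumulation points of `K^(α)`, and intersections are taken at limit ordinals. -/
def cbDeriv (K : Type) [TopologicalSpace K] (α : Ordinal.{0}) : Set K :=
  Ordinal.limitRecOn α univ (fun _ A => derivedSet A) (fun β _ ih => ⋂ γ : Set.Iio β, ih γ.1 γ.2)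

/-- The height: the least ordinal `α` with `K^(α)` empty. -/
noncomputable def height (K : Type) [TopologicalSpace K] : Ordinal.{0} :=
  sInf {α | cbDeriv K α = ∅}

lemma cb_zero (K : Type) [TopologicalSpace K] : cbDeriv K 0 = univ := by
  unfold cbDeriv; rw [Ordinal.limitRecOn_zero]

lemma cb_succ (K : Type) [TopologicalSpace K] (α : Ordinal.{0}) :
    cbDeriv K (α + 1) = derivedSet (cbDeriv K α) := by
  unfold cbDeriv; rw [Ordinal.limitRecOn_add_one]

lemma cb_limit (K : Type) [TopologicalSpace K] {α : Ordinal.{0}} (h : Order.IsSuccLimit α) :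
    cbDeriv K α = ⋂ γ : Set.Iio α, cbDeriv K γ.1 := by
  unfold cbDeriv; rw [Ordinal.limitRecOn_limit _ _ _ _ h]

lemma cb_closed (K : Type) [TopologicalSpace K] [T1Space K] (α : Ordinal.{0}) :
    IsClosed (cbDeriv K α) := by
  refine Ordinal.limitRecOn α ?_ (fun β _ => ?_) (fun β hβ ih => ?_)
  · rw [cb_zero]; exact isClosed_univ
  · rw [cb_succ]; exact isClosed_derivedSet _
  · rw [cb_limit K hβ]; exact isClosed_iInter fun γ => ih γ.1 γ.2

lemma cb_anti (K : Type) [TopologicalSpace K] [T1Space K] (α : Ordinal.{0}) :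
    ∀ β ≤ α, cbDeriv K α ⊆ cbDeriv K β := by
  refine Ordinal.limitRecOn α ?_ (fun γ ih => ?_) (fun γ hγ ih => ?_)
  · intro β hβ
    rw [le_antisymm hβ zero_le]
  · intro β hβ
    rcases hβ.eq_or_lt with rfl | h
    · exact Subset.rfl
    · rw [cb_succ]
      exact ((isClosed_iff_derivedSet_subset _).1 (cb_closed K γ)).trans
        (ih β (Order.lt_add_one_iff.1 h))
  · intro β hβ
    rcases hβ.eq_or_lt with rfl | h
    · exact Subset.rfl
    · rw [cb_limit K hγ]
      exact iInter_subset _ (⟨β, h⟩ : Set.Iio γ)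

/-- disjoint bumps near an accumulation point -/
lemma bumps {K : Type} [TopologicalSpace K] [CompactSpace K] [T2Space K] {A : Set K} {k : K}
    (hk : k ∈ derivedSet A) {U : Set K} (hU : IsOpen U) (hkU : k ∈ U) :
    ∃ (x : ℕ → K) (χ : ℕ → C(K, ℝ)), (∀ n, x n ∈ A ∧ x n ∈ U) ∧ (∀ n, χ n (x n) = 1) ∧
      (∀ n y, 0 ≤ χ n y) ∧ ∀ n y, ∑ j ∈ Finset.range n, χ j y ≤ 1 := by
  have step : ∀ W : {W : Set K // IsOpen W ∧ k ∈ W ∧ W ⊆ U}, ∃ (x : K) (V : Set K)
      (W' : {W : Set K // IsOpen W ∧ k ∈ W ∧ W ⊆ U}), x ∈ A ∧ x ∈ V ∧ IsOpen V ∧ V ⊆ W.1 ∧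
        W'.1 ⊆ W.1 ∧ Disjoint V W'.1 := by
    rintro ⟨W, hW, hkW, hWU⟩
    rw [mem_derivedSet, accPt_iff_nhds] at hk
    obtain ⟨x, ⟨hxW, hxA⟩, hxk⟩ := hk W (hW.mem_nhds hkW)
    obtain ⟨V0, W0, h1, h2, h3, h4, h5⟩ := t2_separation hxk
    exact ⟨x, V0 ∩ W, ⟨W0 ∩ W, h2.inter hW, ⟨h4, hkW⟩, inter_subset_right.trans hWU⟩, hxA,
      ⟨h3, hxW⟩, h1.inter hW, inter_subset_right, inter_subset_right,
      h5.mono inter_subset_left inter_subset_left⟩
  choose X V W' s1 s2 s3 s4 s5 s6 using step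
  obtain ⟨W, hW0, hWs⟩ : ∃ W : ℕ → {W : Set K // IsOpen W ∧ k ∈ W ∧ W ⊆ U},
      W 0 = ⟨U, hU, hkU, Subset.rfl⟩ ∧ ∀ n, W (n + 1) = W' (W n) :=
    ⟨fun n => Nat.rec ⟨U, hU, hkU, Subset.rfl⟩ (fun _ w => W' w) n, rfl, fun _ => rfl⟩
  have hanti : ∀ i j, i ≤ j → (W j).1 ⊆ (W i).1 := by
    intro i j hij
    induction j, hij using Nat.le_induction with
    | base => exact Subset.rfl
    | succ j _ ih =>
      rw [hWs]
      exact (s5 (W j)).trans ih
  have hdis : ∀ i j, i < j → Disjoint (V (W i)) (V (W j)) := by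
    intro i j hij
    refine (s6 (W i)).mono_right ?_
    rw [← hWs]
    exact (s4 (W j)).trans (hanti (i + 1) j hij)
  have hdis' : ∀ i j, i ≠ j → ∀ y, y ∈ V (W i) → y ∉ V (W j) := by
    intro i j hij y h1 h2
    rcases lt_or_gt_of_ne hij with h | h
    · exact disjoint_left.1 (hdis i j h) h1 h2
    · exact disjoint_left.1 (hdis j i h) h2 h1
  have hur : ∀ n, ∃ f : C(K, ℝ), EqOn f 0 (V (W n))ᶜ ∧ EqOn f 1 {X (W n)} ∧
      ∀ x, f x ∈ Icc (0 : ℝ) 1 := fun n =>
    exists_continuous_zero_one_of_isClosed (s3 (W n)).isClosed_compl isClosed_singleton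
      (disjoint_left.2 fun y h1 h2 => h1 (by rw [mem_singleton_iff.1 h2]; exact s2 (W n)))
  choose χ c1 c2 c3 using hur
  refine ⟨fun n => X (W n), χ, fun n => ⟨s1 _, (W n).2.2.2 (s4 _ (s2 _))⟩, fun n => ?_,
    fun n y => (c3 n y).1, fun n y => ?_⟩
  · exact c2 n (mem_singleton _)
  · by_cases hy : ∃ j < n, y ∈ V (W j)
    · obtain ⟨j, hj, hyj⟩ := hy
      rw [Finset.sum_eq_single j]
      · exact (c3 j y).2
      · intro i _ hij
        exact c1 i (hdis' j i hij.symm y hyj)
      · intro h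
        exact absurd (Finset.mem_range.2 hj) h
    · push Not at hy
      rw [Finset.sum_eq_zero]
      · exact zero_le_one
      · intro i hi
        exact c1 i (hy i (Finset.mem_range.1 hi))

/-- the main induction -/
lemma key {K L : Type} [TopologicalSpace K] [CompactSpace K] [T2Space K] [TopologicalSpace L]
    [CompactSpace L] [T2Space L] {F : C(K, ℝ) → C(L, ℝ)} {s c : ℝ} (hc : 0 < c)
    (hm : ∀ f g, f ≤ g → F f ≤ F g) (hl : ∀ f g, f ≤ g → s ≤ ‖g - f‖ → c ≤ ‖F g - F f‖)
    (α : Ordinal.{0}) : ∀ (f u : C(K, ℝ)) (k : K), 0 ≤ u → k ∈ cbDeriv K α →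
      s < u k → ∃ l ∈ cbDeriv L α, c ≤ F (f + u) l - F f l := by
  refine Ordinal.limitRecOn α ?_ (fun α ih => ?_) (fun α hα ih => ?_)
  · intro f u k hu _ hk
    rw [cb_zero]
    by_contra hcon
    push Not at hcon
    have h1 : f ≤ f + u := le_add_of_nonneg_right hu
    have h2 : ‖F (f + u) - F f‖ < c := by
      refine (ContinuousMap.norm_lt_iff _ hc).2 fun l => ?_
      have h3 : F f l ≤ F (f + u) l := hm _ _ h1 l
      have h4 := hcon l (mem_univ l)
      rw [Real.norm_eq_abs, ContinuousMap.sub_apply, abs_of_nonneg (sub_nonneg.2 h3)]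
      exact h4
    have h5 : u k ≤ ‖u‖ := (le_abs_self _).trans (ContinuousMap.norm_coe_le_norm u k)
    refine absurd (hl _ _ h1 ?_) (not_le.2 h2)
    rw [add_sub_cancel_left]
    linarith
  · intro f u k hu hk hsk
    rw [cb_succ] at hk ⊢
    obtain ⟨x, χ, hx, h1, h0, hsum⟩ := bumps hk (U := {y | s < u y})
      (isOpen_lt continuous_const u.continuous) hsk
    obtain ⟨S, hS⟩ : ∃ S : ℕ → C(K, ℝ), ∀ n, S n = ∑ j ∈ Finset.range n, χ j :=
      ⟨_, fun _ => rfl⟩
    have hSy : ∀ n y, S n y = ∑ j ∈ Finset.range n, χ j y := fun n y => by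
      rw [hS, ContinuousMap.sum_apply]
    obtain ⟨G, hG⟩ : ∃ G : ℕ → C(K, ℝ), ∀ n, G n = f + u * S n := ⟨_, fun _ => rfl⟩
    have hGs : ∀ n, G (n + 1) = G n + u * χ n := by
      intro n
      rw [hG, hG, hS, hS, Finset.sum_range_succ]
      ring
    have huy : ∀ y, 0 ≤ u y := fun y => hu y
    have hGm : ∀ n, G n ≤ G (n + 1) := by
      intro n
      rw [hGs]
      refine ContinuousMap.le_def.2 fun y => ?_
      rw [ContinuousMap.add_apply, ContinuousMap.mul_apply]
      have := mul_nonneg (huy y) (h0 n y)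
      linarith
    have hGf : ∀ n, f ≤ G n := by
      intro n
      rw [hG]
      refine ContinuousMap.le_def.2 fun y => ?_
      rw [ContinuousMap.add_apply, ContinuousMap.mul_apply, hSy]
      have := mul_nonneg (huy y) (Finset.sum_nonneg fun j (_ : j ∈ Finset.range n) => h0 j y)
      linarith
    have hGu : ∀ n, G n ≤ f + u := by
      intro n
      rw [hG]
      refine ContinuousMap.le_def.2 fun y => ?_
      rw [ContinuousMap.add_apply, ContinuousMap.mul_apply, hSy, ContinuousMap.add_apply]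
      have := mul_le_mul_of_nonneg_left (hsum n y) (huy y)
      linarith
    have hst : ∀ n, ∃ l ∈ cbDeriv L α, c ≤ F (G n + u * χ n) l - F (G n) l := by
      intro n
      refine ih (G n) (u * χ n) (x n) (fun y => mul_nonneg (huy y) (h0 n y)) (hx n).1 ?_
      rw [ContinuousMap.mul_apply, h1, mul_one]
      exact (hx n).2
    choose l hlA hls using hst
    have hls' : ∀ n, c ≤ F (G (n + 1)) (l n) - F (G n) (l n) := fun n => by
      rw [hGs]; exact hls n
    have hD : IsClosed {y : L | c ≤ F (f + u) y - F f y} :=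
      isClosed_le continuous_const ((F (f + u)).continuous.sub (F f).continuous)
    have hlD : range l ⊆ {y : L | c ≤ F (f + u) y - F f y} := by
      rintro _ ⟨n, rfl⟩
      have e1 := hls' n
      have e2 : F (G (n + 1)) (l n) ≤ F (f + u) (l n) := hm _ _ (hGu (n + 1)) (l n)
      have e3 : F f (l n) ≤ F (G n) (l n) := hm _ _ (hGf n) (l n)
      show c ≤ F (f + u) (l n) - F f (l n)
      linarith
    have hinf : (range l).Infinite := by
      intro hfin
      have : Finite (range l) := hfin.to_subtype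
      obtain ⟨⟨y, hy⟩, hyi⟩ := Finite.exists_infinite_fiber (rangeFactorization l)
      have hmono : Monotone fun n => F (G n) y := monotone_nat_of_le_succ fun n => hm _ _ (hGm n) y
      have hbdd : BddAbove (range fun n => F (G n) y) := by
        refine ⟨F (f + u) y, ?_⟩
        rintro _ ⟨n, rfl⟩
        exact hm _ _ (hGu n) y
      have ht := tendsto_atTop_ciSup hmono hbdd
      have ht' : Tendsto (fun n => F (G (n + 1)) y - F (G n) y) atTop (𝓝 0) := by
        have := ((tendsto_add_atTop_iff_nat 1).2 ht).sub ht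
        simpa using this
      have hev := ht'.eventually (gt_mem_nhds (hc))
      obtain ⟨N, hN⟩ := eventually_atTop.1 hev
      have hyinf : (rangeFactorization l ⁻¹' {⟨y, hy⟩}).Infinite := infinite_coe_iff.1 hyi
      obtain ⟨n, hn, hNn⟩ := hyinf.exists_gt N
      have e0 : rangeFactorization l n = ⟨y, hy⟩ := hn
      have e1 : l n = y := congrArg Subtype.val e0
      have e2 := hls' n
      rw [e1] at e2
      exact absurd e2 (not_le.2 (hN n hNn.le))
    obtain ⟨z, hz⟩ := hinf.exists_accPt_principal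
    have hz' : z ∈ derivedSet (range l) := hz
    refine ⟨z, derivedSet_mono _ _ (by rintro _ ⟨n, rfl⟩; exact hlA n) hz', ?_⟩
    exact (isClosed_iff_derivedSet_subset _).1 hD (derivedSet_mono _ _ hlD hz')
  · intro f u k hu hk hsk
    rw [cb_limit K hα, mem_iInter] at hk
    rw [cb_limit L hα]
    have hD : IsClosed {y : L | c ≤ F (f + u) y - F f y} :=
      isClosed_le continuous_const ((F (f + u)).continuous.sub (F f).continuous)
    have hne : Nonempty (Set.Iio α) := ⟨⟨0, hα.bot_lt⟩⟩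
    have hcl : ∀ γ : Set.Iio α, IsClosed (cbDeriv L γ.1 ∩
        {y : L | c ≤ F (f + u) y - F f y}) := fun γ => (cb_closed L γ.1).inter hD
    obtain ⟨z, hz⟩ := IsCompact.nonempty_iInter_of_directed_nonempty_isCompact_isClosed
      (fun γ : Set.Iio α => cbDeriv L γ.1 ∩ {y : L | c ≤ F (f + u) y - F f y})
      (fun γ δ => by
        rcases le_total γ δ with h | h
        · exact ⟨δ, inter_subset_inter_left _ (cb_anti L δ.1 γ.1 h), Subset.rfl⟩
        · exact ⟨γ, Subset.rfl, inter_subset_inter_left _ (cb_anti L γ.1 δ.1 h)⟩)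
      (fun γ => by
        obtain ⟨l, h1, h2⟩ := ih γ.1 γ.2 f u k hu (hk γ) hsk
        exact ⟨l, h1, h2⟩)
      (fun γ => (hcl γ).isCompact) hcl
    rw [mem_iInter] at hz
    exact ⟨z, mem_iInter.2 fun γ => (hz γ).1, (hz ⟨0, hα.bot_lt⟩).2⟩

/-- the inequality with the maximum -/
lemma key' {K L : Type} [TopologicalSpace K] [CompactSpace K] [T2Space K] [TopologicalSpace L]
    [CompactSpace L] [T2Space L] {F : C(K, ℝ) → C(L, ℝ)} {c : ℝ} (hc : 0 < c)
    (hm : ∀ f g, f ≤ g → F f ≤ F g) (hl : ∀ f g, f ≤ g → c * ‖g - f‖ ≤ ‖F g - F f‖)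
    (α : Ordinal.{0}) (f g : C(K, ℝ)) (hfg : f ≤ g) (k : K) (hk : k ∈ cbDeriv K α) :
    ∃ l ∈ cbDeriv L α, c * (g k - f k) ≤ F g l - F f l := by
  have hls : ∀ s : ℝ, ∀ f g, f ≤ g → s ≤ ‖g - f‖ → c * s ≤ ‖F g - F f‖ := fun s f g h1 h2 =>
    (mul_le_mul_of_nonneg_left h2 hc.le).trans (hl f g h1)
  have hu : 0 ≤ g - f := sub_nonneg.2 hfg
  have hfu : f + (g - f) = g := by abel
  rcases (hu k).eq_or_lt with h0 | h0
  · obtain ⟨l, hl1, -⟩ := key (s := 1 / 2) (c := c * (1 / 2)) (by positivity) hm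
      (hls (1 / 2)) α f 1 k zero_le_one hk (by norm_num)
    refine ⟨l, hl1, ?_⟩
    have h1 : g k - f k = 0 := h0.symm
    rw [h1, mul_zero]
    exact sub_nonneg.2 (hm _ _ hfg l)
  · have h0' : 0 < g k - f k := h0
    obtain ⟨t, ht⟩ : ∃ t : ℕ → Set L, ∀ n, t n = cbDeriv L α ∩
        {y : L | c * ((g k - f k) * (1 - 1 / ((n : ℝ) + 2))) ≤ F g y - F f y} :=
      ⟨_, fun _ => rfl⟩
    have hcl : ∀ n, IsClosed (t n) := fun n => by
      rw [ht]
      exact (cb_closed L α).inter
        (isClosed_le continuous_const ((F g).continuous.sub (F f).continuous))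
    obtain ⟨z, hz⟩ := IsCompact.nonempty_iInter_of_sequence_nonempty_isCompact_isClosed t
      (fun n => by
        rw [ht, ht]
        refine inter_subset_inter_right _ fun y hy => ?_
        have hy' : c * ((g k - f k) * (1 - 1 / (((n + 1 : ℕ) : ℝ) + 2))) ≤ F g y - F f y := hy
        refine mem_ofPred_eq.symm ▸ (le_trans ?_ hy' :
          c * ((g k - f k) * (1 - 1 / ((n : ℝ) + 2))) ≤ F g y - F f y)
        have e1 : 1 / (((n + 1 : ℕ) : ℝ) + 2) ≤ 1 / ((n : ℝ) + 2) := by
          apply one_div_le_one_div_of_le (by positivity)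
          push_cast
          linarith
        apply mul_le_mul_of_nonneg_left _ hc.le
        apply mul_le_mul_of_nonneg_left _ h0'.le
        linarith)
      (fun n => by
        have e1 : 1 / ((n : ℝ) + 2) ≤ 1 / 2 := by
          apply one_div_le_one_div_of_le (by norm_num)
          linarith [Nat.cast_nonneg (α := ℝ) n]
        have e2 : 0 < 1 / ((n : ℝ) + 2) := by positivity
        obtain ⟨l, h1, h2⟩ := key (s := (g k - f k) * (1 - 1 / ((n : ℝ) + 2)))
          (c := c * ((g k - f k) * (1 - 1 / ((n : ℝ) + 2))))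
          (mul_pos hc (mul_pos h0' (by linarith))) hm (hls _) α f (g - f) k hu hk (by
            show (g k - f k) * (1 - 1 / ((n : ℝ) + 2)) < g k - f k
            nlinarith)
        rw [hfu] at h2
        rw [ht]
        exact ⟨l, h1, h2⟩)
      (hcl 0).isCompact hcl
    rw [mem_iInter] at hz
    have hz1 := hz 0
    rw [ht] at hz1
    refine ⟨z, hz1.1, ?_⟩
    have hlim : Tendsto (fun n : ℕ => c * ((g k - f k) * (1 - 1 / ((n : ℝ) + 2)))) atTop
        (𝓝 (c * ((g k - f k) * (1 - 0)))) := by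
      refine (((tendsto_const_nhds.sub ?_).const_mul _).const_mul _)
      refine tendsto_const_nhds.div_atTop ?_
      exact tendsto_atTop_add_const_right _ _ tendsto_natCast_atTop_atTop
    rw [sub_zero, mul_one] at hlim
    refine le_of_tendsto' hlim fun n => ?_
    have := hz n
    rw [ht] at this
    exact this.2

/-- countable compact Hausdorff spaces are scattered -/
lemma scattered (L : Type) [TopologicalSpace L] [CompactSpace L] [T2Space L] [Countable L] :
    ∃ α : Ordinal.{0}, cbDeriv L α = ∅ := by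
  by_contra hcon
  push Not at hcon
  have h1 : ∃ α β : Ordinal.{0}, α < β ∧ cbDeriv L α = cbDeriv L β := by
    have h2 := not_injective_of_ordinal (fun α : Ordinal.{0} => cbDeriv L α)
    simp only [Function.Injective, not_forall] at h2
    obtain ⟨a, b, h3, h4⟩ := h2
    rcases lt_or_gt_of_ne h4 with h | h
    · exact ⟨a, b, h, h3⟩
    · exact ⟨b, a, h, h3.symm⟩
  obtain ⟨α, β, hαβ, he⟩ := h1
  have h2 : cbDeriv L α ⊆ derivedSet (cbDeriv L α) := by
    rw [← cb_succ]
    conv_lhs => rw [he]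
    exact cb_anti L β (α + 1) (Order.add_one_le_of_lt hαβ)
  have hcl := cb_closed L α
  have hcomp : CompactSpace (cbDeriv L α) := isCompact_iff_compactSpace.1 hcl.isCompact
  have hne : Nonempty (cbDeriv L α) := (hcon α).to_subtype
  obtain ⟨⟨a, ha⟩, hi⟩ := nonempty_interior_of_iUnion_of_closed
    (f := fun a : cbDeriv L α => ({a} : Set (cbDeriv L α))) (fun _ => isClosed_singleton) (by
      ext x
      simp)
  have hopen : IsOpen ({⟨a, ha⟩} : Set (cbDeriv L α)) := by
    have h3 : interior ({⟨a, ha⟩} : Set (cbDeriv L α)) = {⟨a, ha⟩} := by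
      apply subset_antisymm interior_subset
      obtain ⟨x, hx⟩ := hi
      have h4 : x = ⟨a, ha⟩ := mem_singleton_iff.1 (interior_subset hx)
      rw [h4] at hx
      exact singleton_subset_iff.2 hx
    rw [← h3]
    exact isOpen_interior
  rw [isOpen_induced_iff] at hopen
  obtain ⟨U, hU, hUa⟩ := hopen
  have haU : a ∈ U := by
    have h5 : (⟨a, ha⟩ : cbDeriv L α) ∈ Subtype.val ⁻¹' U := by rw [hUa]; exact mem_singleton _
    exact h5
  have h6 := h2 ha
  rw [mem_derivedSet, accPt_iff_nhds] at h6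
  obtain ⟨y, ⟨hyU, hyA⟩, hya⟩ := h6 U (hU.mem_nhds haU)
  have h7 : (⟨y, hyA⟩ : cbDeriv L α) ∈ Subtype.val ⁻¹' U := hyU
  rw [hUa, mem_singleton_iff] at h7
  exact hya (congrArg Subtype.val h7)

/-- Let `K` and `L` be compact Hausdorff spaces, and let `F : C(K) → C(L)` be order preserving, not
necessarily linear, continuous or onto.

1. Let `s > 0`, `c > 0` and `‖F g - F f‖ ≥ c` for all `f ≤ g` with `‖g - f‖ ≥ s`.  Then `K^(α) = ∅`
for all ordinals `α` with `L^(α) = ∅`.  If `L` is countable, then `K` is scattered, and the height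
of `K` is at most the height of `L`.  Moreover, for all ordinals `α`, all `f ≤ g` and all points `k`
of `K^(α)` with `g(k) - f(k) > s` there is a point `l` of `L^(α)` with `(F g)(l) - (F f)(l) ≥ c`.

2. Let `c > 0` and `c ‖g - f‖ ≤ ‖F g - F f‖` for all `f ≤ g`.  Then for all ordinals `α`, all
`f ≤ g` and all points `k` of `K^(α)` there is a point `l` of `L^(α)` with
`c (g(k) - f(k)) ≤ (F g)(l) - (F f)(l)`. -/
theorem result (K L : Type) [TopologicalSpace K] [CompactSpace K] [T2Space K]
    [TopologicalSpace L] [CompactSpace L] [T2Space L] (F : C(K, ℝ) → C(L, ℝ))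
    (hF : ∀ f g, f ≤ g → F f ≤ F g) :
    (∀ s c : ℝ, 0 < s → 0 < c → (∀ f g, f ≤ g → s ≤ ‖g - f‖ → c ≤ ‖F g - F f‖) →
      (∀ α : Ordinal.{0}, cbDeriv L α = ∅ → cbDeriv K α = ∅) ∧
      (Countable L → cbDeriv K (height K) = ∅ ∧ height K ≤ height L) ∧
      ∀ (α : Ordinal.{0}) (f g : C(K, ℝ)), f ≤ g → ∀ k ∈ cbDeriv K α, s < g k - f k →
        ∃ l ∈ cbDeriv L α, c ≤ F g l - F f l) ∧
    ∀ c : ℝ, 0 < c → (∀ f g, f ≤ g → c * ‖g - f‖ ≤ ‖F g - F f‖) →
      ∀ (α : Ordinal.{0}) (f g : C(K, ℝ)), f ≤ g → ∀ k ∈ cbDeriv K α,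
        ∃ l ∈ cbDeriv L α, c * (g k - f k) ≤ F g l - F f l := by
  refine ⟨fun s c hs hc hl => ?_, fun c hc hl α f g hfg k hk => key' hc hF hl α f g hfg k hk⟩
  have h1 : ∀ α : Ordinal.{0}, cbDeriv L α = ∅ → cbDeriv K α = ∅ := by
    intro α hα
    by_contra hne
    obtain ⟨k, hk⟩ := nonempty_iff_ne_empty.2 hne
    obtain ⟨l, h2, -⟩ := key hc hF hl α 0 (ContinuousMap.const K (s + 1)) k
      (fun y => (by linarith : (0 : ℝ) ≤ s + 1)) hk (by
        rw [ContinuousMap.const_apply]
        linarith)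
    rw [hα] at h2
    exact h2
  refine ⟨h1, fun hcount => ?_, fun α f g hfg k hk hgk => ?_⟩
  · have h2 : cbDeriv L (height L) = ∅ := csInf_mem (s := {α | cbDeriv L α = ∅}) (scattered L)
    have h3 : cbDeriv K (height L) = ∅ := h1 _ h2
    exact ⟨csInf_mem (s := {α | cbDeriv K α = ∅}) ⟨_, h3⟩,
      csInf_le' (s := {α | cbDeriv K α = ∅}) h3⟩
  · have h2 := key hc hF hl α f (g - f) k (sub_nonneg.2 hfg) hk hgk
    rwa [add_sub_cancel] at h2

end Pool.Agent.Results.MP_d12f8b_an.NonlinearHeights
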